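import Pool.Agent.W525.CB.Stm

open CategoryTheory AlgebraicGeometry

namespace Pool.Agent.W525.CB.P397

theorem main : Pool.Agent.W525.CB.S_SURJ := by
  intro k _ X Z _ _ f g _ _ h hfg hdom
  subst hfg
  have hp : IsProper h := IsProper.of_comp h g
  have hcl : IsClosedMap h := h.isClosedMap
  rw [surjective_iff]
  have hd : DenseRange h := hdom.denseRange
  intro z
  have h1 : Set.range h = Set.univ := by
    have h2 : IsClosed (Set.range h) := hcl.isClosed_range
    rw [← h2.closure_eq]
    exact hd.closure_range
  have : z ∈ Set.range h := by rw [h1]; trivial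
  exact this

end Pool.Agent.W525.CB.P397
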